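import Mathlib

namespace Pool.Agent.Lib.MP_a46e5c_co

open Finset

theorem ramsey_aux (ι : Type*) [LinearOrder ι] (κ : Type*) [Fintype κ] (L : ℕ) :
    ∃ N : ℕ, ∀ (χ : ι → ι → κ) (I : Finset ι), N ≤ I.card →
      ∃ H ⊆ I, H.card = L ∧ ∃ f : ι → κ, ∀ a ∈ H, ∀ b ∈ H, a < b → χ a b = f a := by
  classical
  induction L with
  | zero =>
    refine ⟨2, fun χ I hI => ?_⟩
    obtain ⟨a, ha⟩ : I.Nonempty := Finset.card_pos.mp (by omega)
    exact ⟨∅, by simp, by simp, fun _ => χ a a, by simp⟩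
  | succ L ih =>
    obtain ⟨N, hN⟩ := ih
    refine ⟨Fintype.card κ * N + 2, fun χ I hI => ?_⟩
    have hne : I.Nonempty := Finset.card_pos.mp (by omega)
    set a := I.min' hne with ha
    have haI : a ∈ I := I.min'_mem hne
    have hcard : Fintype.card κ * N < (I.erase a).card := by
      rw [Finset.card_erase_of_mem haI]; omega
    obtain ⟨c, -, hc⟩ := Finset.exists_lt_card_fiber_of_mul_lt_card_of_maps_to
      (s := I.erase a) (t := Finset.univ) (f := fun b => χ a b) (n := N)
      (fun _ _ => Finset.mem_univ _) (by simpa using hcard)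
    obtain ⟨H, hH, hHc, f, hf⟩ := hN χ _ hc.le
    have haH : a ∉ H := fun h => by
      have := hH h
      simp at this
    refine ⟨insert a H, ?_, by rw [Finset.card_insert_of_notMem haH, hHc],
      Function.update f a c, ?_⟩
    · intro x hx
      rcases Finset.mem_insert.mp hx with rfl | hx
      · exact haI
      · have := hH hx
        simp only [Finset.mem_filter, Finset.mem_erase] at this
        exact this.1.2
    · intro x hx y hy hxy
      rcases Finset.mem_insert.mp hx with rfl | hx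
      · rcases Finset.mem_insert.mp hy with rfl | hy
        · exact absurd hxy (lt_irrefl _)
        · have := hH hy
          simp only [Finset.mem_filter] at this
          simp [this.2]
      · have hxa : x ≠ a := fun h => haH (h ▸ hx)
        rcases Finset.mem_insert.mp hy with rfl | hy
        · have := hH hx
          simp only [Finset.mem_filter, Finset.mem_erase] at this
          exact absurd (I.min'_le x this.1.2) (not_le.mpr hxy)
        · rw [Function.update_of_ne hxa]
          exact hf x hx y hy hxy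

theorem ramsey (ι : Type*) [LinearOrder ι] (κ : Type*) [Fintype κ] (M : ℕ) :
    ∃ N : ℕ, ∀ (χ : ι → ι → κ) (I : Finset ι), N ≤ I.card →
      ∃ H ⊆ I, M ≤ H.card ∧ ∃ c : κ, ∀ a ∈ H, ∀ b ∈ H, a < b → χ a b = c := by
  classical
  obtain ⟨N, hN⟩ := ramsey_aux ι κ (Fintype.card κ * M + 1)
  refine ⟨N, fun χ I hI => ?_⟩
  obtain ⟨H, hH, hHc, f, hf⟩ := hN χ I hI
  obtain ⟨c, -, hc⟩ := Finset.exists_lt_card_fiber_of_mul_lt_card_of_maps_to
      (s := H) (t := Finset.univ) (f := f) (n := M)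
      (fun _ _ => Finset.mem_univ _) (by simp [hHc])
  refine ⟨_, (Finset.filter_subset _ _).trans hH, hc.le, c, ?_⟩
  intro a ha b hb hab
  simp only [Finset.mem_filter] at ha hb
  rw [hf a ha.1 b hb.1 hab, ha.2]

theorem dominance (m : ℕ) (ε : ℝ) (hε : 0 ≤ ε) (hm : (m : ℝ) * ε ≤ 1 / 2)
    (E : Fin m → Fin m → ℝ) (h1 : ∀ i, E i i = 1) (h0 : ∀ i j, 0 ≤ E i j)
    (h2 : ∀ i j, i ≠ j → E i j ≤ ε) :
    ∃ l : Fin m → ℝ, (∀ i, 0 ≤ l i) ∧ ∀ j, ∑ i, l i * E i j = 1 := by
  classical
  have key : ∀ (l : Fin m → ℝ) (M : ℝ), 0 ≤ M → (∀ i, |l i| ≤ M) → ∀ j,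
      |∑ i, l i * E i j - l j| ≤ M / 2 := by
    intro l M hM hl j
    have e : ∑ i, l i * E i j - l j = ∑ i ∈ univ.erase j, l i * E i j := by
      rw [← Finset.add_sum_erase univ _ (mem_univ j), h1]; ring
    rw [e]
    calc |∑ i ∈ univ.erase j, l i * E i j| ≤ ∑ i ∈ univ.erase j, |l i * E i j| :=
          Finset.abs_sum_le_sum_abs _ _
      _ ≤ ∑ i ∈ univ.erase j, M * ε := by
          refine Finset.sum_le_sum fun i hi => ?_
          rw [abs_mul, abs_of_nonneg (h0 i j)]
          exact mul_le_mul (hl i) (h2 i j (Finset.ne_of_mem_erase hi)) (h0 i j) hM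
      _ ≤ ∑ _i : Fin m, M * ε :=
          Finset.sum_le_sum_of_subset_of_nonneg (Finset.erase_subset _ _)
            (fun _ _ _ => mul_nonneg hM hε)
      _ = M * (m * ε) := by simp; ring
      _ ≤ M * (1 / 2) := mul_le_mul_of_nonneg_left hm hM
      _ = M / 2 := by ring
  have bound : ∀ (l : Fin m → ℝ) (c : ℝ), 0 ≤ c → (∀ j, ∑ i, l i * E i j = c) →
      ∀ i, |l i| ≤ 2 * c := by
    intro l c hc hl i
    obtain ⟨i0, -, hi0⟩ := Finset.exists_max_image univ (fun i => |l i|) ⟨i, mem_univ i⟩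
    have h3 := key l |l i0| (abs_nonneg _) (fun i => hi0 i (mem_univ i)) i0
    rw [hl i0] at h3
    have h4 : |l i0| ≤ c + |l i0| / 2 := by
      have := abs_sub_abs_le_abs_sub (l i0) c
      rw [abs_sub_comm, abs_of_nonneg hc] at this
      linarith
    have := hi0 i (mem_univ i)
    linarith
  let T : (Fin m → ℝ) →ₗ[ℝ] (Fin m → ℝ) :=
    { toFun := fun l j => ∑ i, l i * E i j
      map_add' := fun x y => by ext j; simp [add_mul, Finset.sum_add_distrib]
      map_smul' := fun c x => by ext j; simp [Finset.mul_sum, mul_assoc] }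
  have hinj : Function.Injective T := by
    rw [injective_iff_map_eq_zero]
    intro l hl
    ext i
    have := bound l 0 le_rfl (fun j => congrFun hl j) i
    simpa using this
  obtain ⟨l, hl⟩ := (LinearMap.injective_iff_surjective.mp hinj) (fun _ => 1)
  have hl' : ∀ j, ∑ i, l i * E i j = 1 := fun j => congrFun hl j
  refine ⟨l, fun j => ?_, hl'⟩
  have h5 := key l 2 (by norm_num) (fun i => by simpa using bound l 1 zero_le_one hl' i) j
  rw [hl' j] at h5
  have := (abs_le.mp h5).2
  linarith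

theorem unimodal (n : ℕ) (K : ℤ) (hK : 0 ≤ K) (w : ℕ → ℕ → ℤ)
    (hw : ∀ r r' t, r < r' → r' < 2 * (n + 1) → t < n →
      w r (t + 1) - w r t + 2 * K ≤ w r' (t + 1) - w r' t) :
    ∃ q : ℕ → ℤ, ∀ i r t, i ≤ n → t ≤ n → 2 * i ≤ r → r ≤ 2 * i + 1 → t ≠ i →
      w r t - q t ≤ w r i - q i - K := by
  refine ⟨fun t => ∑ u ∈ range t, (w (2 * u + 1) (u + 1) - w (2 * u + 1) u + K), ?_⟩
  intro i r t hi ht hr1 hr2 hti
  set q : ℕ → ℤ := fun t => ∑ u ∈ range t, (w (2 * u + 1) (u + 1) - w (2 * u + 1) u + K) with hq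
  have hs : ∀ u, q (u + 1) = q u + (w (2 * u + 1) (u + 1) - w (2 * u + 1) u + K) := by
    intro u; simp only [hq, Finset.sum_range_succ]
  have up : ∀ u, u < i → w r u - q u + K ≤ w r (u + 1) - q (u + 1) := by
    intro u hu
    have := hw (2 * u + 1) r u (by omega) (by omega) (by omega)
    rw [hs]; linarith
  have down : ∀ u, i ≤ u → u < n → w r (u + 1) - q (u + 1) + K ≤ w r u - q u := by
    intro u hu hun
    rw [hs]
    rcases Nat.lt_or_ge r (2 * u + 1) with h | h
    · have := hw r (2 * u + 1) u h (by omega) hun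
      linarith
    · have : r = 2 * u + 1 := by omega
      subst this; linarith
  show w r t - q t ≤ w r i - q i - K
  rcases Nat.lt_or_gt_of_ne hti with h | h
  · have : ∀ k, t + k + 1 ≤ i → w r t - q t + K ≤ w r (t + k + 1) - q (t + k + 1) := by
      intro k
      induction k with
      | zero => intro hk; exact up t (by omega)
      | succ k ih =>
        intro hk
        have h1 := ih (by omega)
        have h2 := up (t + k + 1) (by omega)
        have e : t + (k + 1) + 1 = t + k + 1 + 1 := by ring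
        rw [e]; linarith
    have h3 := this (i - t - 1) (by omega)
    have e : t + (i - t - 1) + 1 = i := by omega
    rw [e] at h3; linarith
  · have : ∀ k, i + k + 1 ≤ n → w r (i + k + 1) - q (i + k + 1) + K ≤ w r i - q i := by
      intro k
      induction k with
      | zero => intro hk; exact down i le_rfl (by omega)
      | succ k ih =>
        intro hk
        have h1 := ih (by omega)
        have h2 := down (i + k + 1) (by omega) (by omega)
        have e : i + (k + 1) + 1 = i + k + 1 + 1 := by ring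
        rw [e]; linarith
    have h3 := this (t - i - 1) (by omega)
    have e : i + (t - i - 1) + 1 = t := by omega
    rw [e] at h3; linarith

/-- `α ^ q` lies in the cone spanned by the vectors `α ^ v i`, `i ∈ A`. -/
def InCone {ι : Type*} {n : ℕ} (α : ℝ) (v : ι → Fin n → ℤ) (A : Finset ι) (q : Fin n → ℤ) :
    Prop :=
  ∃ l : ι → ℝ, (∀ i, 0 ≤ l i) ∧ ∀ j, ∑ i ∈ A, l i * α ^ (v i j) = α ^ (q j)

theorem inCone_of_simplex {ι : Type*} [DecidableEq ι] {n : ℕ} (α : ℝ) (hα : 1 < α) (K : ℕ)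
    (hK : (n : ℝ) * α ^ (-(K : ℤ)) ≤ 1 / 2)
    (v : ι → Fin n → ℤ) (a : Fin n → ι) (ha : Function.Injective a) (q : Fin n → ℤ)
    (hq : ∀ i j, i ≠ j → v (a i) j - q j ≤ v (a i) i - q i - K) :
    InCone α v (univ.image a) q := by
  have hα0 : 0 < α := by linarith
  obtain ⟨l, hl0, hl⟩ := dominance n (α ^ (-(K : ℤ))) (zpow_pos hα0 _).le hK
    (fun i j => α ^ ((v (a i) j - q j) - (v (a i) i - q i))) (by simp)
    (fun i j => (zpow_pos hα0 _).le)
    (fun i j hij => zpow_le_zpow_right₀ hα.le (by have := hq i j hij; linarith))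
  refine ⟨Function.extend a (fun i => l i * α ^ (q i - v (a i) i)) 0, ?_, ?_⟩
  · intro x
    by_cases hx : ∃ i, a i = x
    · obtain ⟨i, rfl⟩ := hx
      rw [ha.extend_apply]
      exact mul_nonneg (hl0 i) (zpow_pos hα0 _).le
    · rw [Function.extend_apply' _ _ _ hx]; simp
  · intro j
    rw [Finset.sum_image (fun x _ y _ h => ha h)]
    have : α ^ q j = (∑ i, l i * α ^ ((v (a i) j - q j) - (v (a i) i - q i))) * α ^ q j := by
      rw [hl j, one_mul]
    rw [this, Finset.sum_mul]
    refine Finset.sum_congr rfl fun i _ => ?_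
    rw [ha.extend_apply, mul_assoc, mul_assoc, ← zpow_add₀ hα0.ne', ← zpow_add₀ hα0.ne']
    congr 2; ring

theorem radon (ι : Type*) (α : ℝ) (hα : 1 < α) (n : ℕ) :
    ∃ N : ℕ, ∀ (v : ι → Fin n → ℤ) (I : Finset ι), N ≤ I.card →
      ∃ A ⊆ I, ∃ B ⊆ I, Disjoint A B ∧ ∃ q : Fin n → ℤ, InCone α v A q ∧ InCone α v B q := by
  classical
  have hα0 : 0 < α := by linarith
  let _ : LinearOrder ι := linearOrderOfSTO WellOrderingRel
  induction n with
  | zero =>
    exact ⟨0, fun v I _ => ⟨∅, by simp, ∅, by simp, by simp, fun j => j.elim0,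
      ⟨0, by simp, fun j => j.elim0⟩, ⟨0, by simp, fun j => j.elim0⟩⟩⟩
  | succ n ih =>
    obtain ⟨N, hN⟩ := ih
    obtain ⟨K, hK⟩ : ∃ K : ℕ, ((n + 1 : ℕ) : ℝ) * α ^ (-(K : ℤ)) ≤ 1 / 2 := by
      obtain ⟨K, hK⟩ := pow_unbounded_of_one_lt (2 * ((n + 1 : ℕ) : ℝ)) hα
      refine ⟨K, ?_⟩
      rw [zpow_neg, zpow_natCast, ← div_eq_mul_inv, div_le_iff₀ (pow_pos hα0 K)]
      linarith
    set G : ℤ := 2 * K + 1 with hG
    have hGpos : 0 < G := by positivity
    let clamp : ℤ → ↥(Finset.Icc (-G) G) := fun x =>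
      ⟨max (-G) (min G x), by
        rw [Finset.mem_Icc]
        exact ⟨le_max_left _ _, max_le (by linarith) (min_le_left _ _)⟩⟩
    obtain ⟨N', hN'⟩ := ramsey ι (Fin (n + 1) → Fin (n + 1) → ↥(Finset.Icc (-G) G))
      (N + 2 * (n + 1) + 3)
    refine ⟨N', fun v I hI => ?_⟩
    obtain ⟨H, hHI, hH, c, hc⟩ := hN'
      (fun a b j k => clamp ((v b k - v b j) - (v a k - v a j))) I hI
    have hc' : ∀ a ∈ H, ∀ b ∈ H, a < b → ∀ j k,
        max (-G) (min G ((v b k - v b j) - (v a k - v a j))) = (c j k : ℤ) := by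
      intro a ha b hb hab j k
      rw [← hc a ha b hb hab]
    let e : Fin (2 * (n + 1) + 3) ↪o ι := H.orderEmbOfCardLe (by omega)
    have he : ∀ i, e i ∈ H := fun i => H.orderEmbOfCardLe_mem _ i
    have tri : ∀ j k, (c j k : ℤ) = 0 ∨ (c j k : ℤ) = G ∨ (c j k : ℤ) = -G := by
      intro j k
      have h01 := hc' _ (he ⟨0, by omega⟩) _ (he ⟨1, by omega⟩)
        (e.strictMono (by simp [Fin.lt_def])) j k
      have h12 := hc' _ (he ⟨1, by omega⟩) _ (he ⟨2, by omega⟩)
        (e.strictMono (by simp [Fin.lt_def])) j k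
      have h02 := hc' _ (he ⟨0, by omega⟩) _ (he ⟨2, by omega⟩)
        (e.strictMono (by simp [Fin.lt_def])) j k
      omega
    by_cases hz : ∃ j k, j ≠ k ∧ (c j k : ℤ) = 0
    · obtain ⟨j, k, hjk, hc0⟩ := hz
      set x0 := e ⟨0, by omega⟩ with hx0
      have hx0H : x0 ∈ H := he _
      have hconst : ∀ a ∈ H, v a k = v a j + (v x0 k - v x0 j) := by
        intro a ha
        rcases lt_trichotomy a x0 with h | h | h
        · have := hc' a ha x0 hx0H h j k
          omega
        · subst h; ring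
        · have := hc' x0 hx0H a ha h j k
          omega
      obtain ⟨j', hj'⟩ := Fin.exists_succAbove_eq hjk
      obtain ⟨A, hA, B, hB, hAB, q, hqA, hqB⟩ :=
        hN (fun i t => v i (k.succAbove t)) H (by omega)
      have ext : ∀ A ⊆ H, InCone α (fun i t => v i (k.succAbove t)) A q →
          InCone α v A (Fin.insertNth k (q j' + (v x0 k - v x0 j)) q) := by
        rintro A hA ⟨l, hl0, hl⟩
        refine ⟨l, hl0, fun t => ?_⟩
        refine Fin.succAboveCases k ?_ (fun t => ?_) t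
        · rw [Fin.insertNth_apply_same, zpow_add₀ hα0.ne', ← hl j', Finset.sum_mul]
          refine Finset.sum_congr rfl fun i hi => ?_
          rw [hconst i (hA hi), zpow_add₀ hα0.ne']
          simp only [hj', mul_assoc]
        · rw [Fin.insertNth_apply_succAbove]; exact hl t
      exact ⟨A, hA.trans hHI, B, hB.trans hHI, hAB, _, ext A hA hqA, ext B hB hqB⟩
    · push Not at hz
      set x0 := e ⟨0, by omega⟩ with hx0
      set x1 := e ⟨1, by omega⟩ with hx1
      have hx01 : x0 < x1 := e.strictMono (by simp [Fin.lt_def])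
      let τ : Fin (n + 1) → ℤ := fun j => v x1 j - v x0 j
      let σ := Tuple.sort τ
      have hσ : Monotone (τ ∘ σ) := Tuple.monotone_sort τ
      have hmono : ∀ s t : Fin (n + 1), s < t → ∀ a ∈ H, ∀ b ∈ H, a < b →
          v a (σ t) - v a (σ s) + G ≤ v b (σ t) - v b (σ s) := by
        intro s t hst a ha b hb hab
        have h1 := hσ hst.le
        simp only [Function.comp, τ] at h1
        have h2 := hc' x0 (he _) x1 (he _) hx01 (σ s) (σ t)
        have h3 := hc' a ha b hb hab (σ s) (σ t)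
        have h4 := tri (σ s) (σ t)
        have h5 := hz (σ s) (σ t) (fun h => hst.ne (σ.injective h))
        omega
      let p : ℕ → ι := fun r => if h : r < 2 * (n + 1) + 3 then e ⟨r, h⟩ else x0
      let cc : ℕ → Fin (n + 1) := fun t => if h : t < n + 1 then σ ⟨t, h⟩ else 0
      have hpH : ∀ r, p r ∈ H := by
        intro r; simp only [p]; split_ifs
        · exact he _
        · exact he _
      have hplt : ∀ r r', r < r' → r' < 2 * (n + 1) → p r < p r' := by
        intro r r' h h'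
        simp only [p]
        rw [dif_pos (by omega), dif_pos (by omega)]
        exact e.strictMono (by simpa [Fin.lt_def] using h)
      have hcc : ∀ t : Fin (n + 1), cc t = σ t := by
        intro t; simp only [cc]; rw [dif_pos t.2]
      obtain ⟨q, hq⟩ := unimodal n K (by positivity) (fun r t => v (p r) (cc t)) (by
        intro r r' t h h' ht
        have := hmono ⟨t, by omega⟩ ⟨t + 1, by omega⟩ (by simp [Fin.lt_def]) _ (hpH r) _ (hpH r')
          (hplt r r' h h')
        rw [← hcc, ← hcc] at this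
        simp only at this ⊢
        omega)
      have simplex : ∀ δ : ℕ, δ ≤ 1 →
          InCone α v (univ.image fun j => p (2 * (σ.symm j : ℕ) + δ)) (fun j => q (σ.symm j)) := by
        intro δ hδ
        refine inCone_of_simplex α hα K hK v _ ?_ _ ?_
        · intro i j hij
          by_contra hne
          have hne' : (σ.symm i : ℕ) ≠ σ.symm j := fun h => hne (σ.symm.injective (Fin.ext h))
          have h1 := (σ.symm i).2
          have h2 := (σ.symm j).2
          rcases Nat.lt_or_gt_of_ne hne' with h | h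
          · exact (hplt _ _ (by omega) (by omega)).ne hij
          · exact (hplt _ _ (by omega) (by omega)).ne' hij
        · intro i j hij
          have hne' : (σ.symm j : ℕ) ≠ σ.symm i :=
            fun h => hij (σ.symm.injective (Fin.ext h)).symm
          have h1 := (σ.symm i).2
          have h2 := (σ.symm j).2
          have := hq (σ.symm i) (2 * (σ.symm i : ℕ) + δ) (σ.symm j) (by omega) (by omega)
            (by omega) (by omega) hne'
          simpa only [hcc, Equiv.apply_symm_apply] using this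
      have sub : ∀ δ : ℕ, (univ.image fun j => p (2 * (σ.symm j : ℕ) + δ)) ⊆ I := by
        intro δ x hx
        obtain ⟨j, -, rfl⟩ := Finset.mem_image.mp hx
        exact hHI (hpH _)
      refine ⟨_, sub 0, _, sub 1, ?_, _, simplex 0 (by omega), simplex 1 le_rfl⟩
      rw [Finset.disjoint_left]
      intro x hx hy
      obtain ⟨i, -, rfl⟩ := Finset.mem_image.mp hx
      obtain ⟨j, -, hj⟩ := Finset.mem_image.mp hy
      have h1 := (σ.symm i).2
      have h2 := (σ.symm j).2
      rcases Nat.lt_or_gt_of_ne (show 2 * (σ.symm i : ℕ) + 0 ≠ 2 * (σ.symm j : ℕ) + 1 by omega)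
        with h | h
      · exact (hplt _ _ h (by omega)).ne' hj
      · exact (hplt _ _ h (by omega)).ne hj

theorem radon_affine (ι : Type*) (α : ℝ) (hα : 1 < α) (d : ℕ) :
    ∃ N : ℕ, ∀ (x : ι → Fin d → ℝ) (I : Finset ι), (∀ i ∈ I, ∀ j, ∃ n : ℕ, x i j = α ^ n) →
      N ≤ I.card → ∃ A ⊆ I, ∃ B ⊆ I, Disjoint A B ∧ ∃ y : Fin d → ℝ, (∀ j, ∃ n : ℕ, y j = α ^ n) ∧
        ∀ C : Set (Fin d → ℝ), Convex ℝ C → ((∀ i ∈ A, x i ∈ C) ∨ (∀ i ∈ B, x i ∈ C)) → y ∈ C := by
  classical
  have hα0 : 0 < α := by linarith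
  obtain ⟨N, hN⟩ := radon ι α hα (d + 1)
  refine ⟨N, fun x I hx hI => ?_⟩
  have hx' : ∀ i j, ∃ n : ℕ, i ∈ I → x i j = α ^ n := by
    intro i j
    by_cases hi : i ∈ I
    · obtain ⟨n, hn⟩ := hx i hi j
      exact ⟨n, fun _ => hn⟩
    · exact ⟨0, fun h => absurd h hi⟩
  choose a ha using hx'
  let v : ι → Fin (d + 1) → ℤ := fun i => Fin.cons 0 (fun j => (a i j : ℤ))
  obtain ⟨A, hA, B, hB, hAB, q, hqA, hqB⟩ := hN v I hI
  have main : ∀ A ⊆ I, InCone α v A q → ∃ w : ι → ℝ, (∀ i, 0 ≤ w i) ∧ ∑ i ∈ A, w i = 1 ∧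
      ∑ i ∈ A, w i • x i = fun j => α ^ (q j.succ - q 0) := by
    rintro A hA ⟨l, hl0, hl⟩
    have hq0 : 0 < α ^ (q 0) := zpow_pos hα0 _
    refine ⟨fun i => l i / α ^ (q 0), fun i => div_nonneg (hl0 i) hq0.le, ?_, ?_⟩
    · have := hl 0
      simp only [v, Fin.cons_zero, zpow_zero, mul_one] at this
      rw [← Finset.sum_div, this, div_self hq0.ne']
    · ext j
      have := hl j.succ
      simp only [v, Fin.cons_succ, zpow_natCast] at this
      rw [Finset.sum_apply, zpow_sub₀ hα0.ne', ← this, Finset.sum_div]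
      refine Finset.sum_congr rfl fun i hi => ?_
      rw [Pi.smul_apply, smul_eq_mul, ha i j (hA hi)]; ring
  refine ⟨A, hA, B, hB, hAB, fun j => α ^ (q j.succ - q 0), ?_, ?_⟩
  · intro j
    obtain ⟨w, hw0, hw1, hw⟩ := main A hA hqA
    have h1 : (1 : ℝ) ≤ α ^ (q j.succ - q 0) := by
      have := congrFun hw j
      rw [← this, ← hw1, Finset.sum_apply]
      refine Finset.sum_le_sum fun i hi => ?_
      rw [Pi.smul_apply, smul_eq_mul, ha i j (hA hi)]
      exact le_mul_of_one_le_right (hw0 i) (one_le_pow₀ hα.le)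
    have h2 : 0 ≤ q j.succ - q 0 := (one_le_zpow_iff_right₀ hα).mp h1
    refine ⟨(q j.succ - q 0).toNat, ?_⟩
    rw [← zpow_natCast, Int.toNat_of_nonneg h2]
  · rintro C hC (h | h)
    · obtain ⟨w, hw0, hw1, hw⟩ := main A hA hqA
      rw [← hw]; exact hC.sum_mem (fun i _ => hw0 i) hw1 h
    · obtain ⟨w, hw0, hw1, hw⟩ := main B hB hqB
      rw [← hw]; exact hC.sum_mem (fun i _ => hw0 i) hw1 h

theorem helly (α : ℝ) (hα : 1 < α) (d : ℕ) :
    ∃ h : ℕ, ∀ F : Finset (Set (Fin d → ℝ)), (∀ C ∈ F, Convex ℝ C) →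
      (∀ G ⊆ F, G.card ≤ h → ∃ x : Fin d → ℝ, (∀ j, ∃ n : ℕ, x j = α ^ n) ∧ ∀ C ∈ G, x ∈ C) →
      ∃ x : Fin d → ℝ, (∀ j, ∃ n : ℕ, x j = α ^ n) ∧ ∀ C ∈ F, x ∈ C := by
  classical
  obtain ⟨N, hN⟩ := radon_affine (Set (Fin d → ℝ)) α hα d
  refine ⟨N, fun F => ?_⟩
  induction F using Finset.strongInduction with
  | H F ih =>
    intro hF hG
    rcases Nat.lt_or_ge N F.card with hlt | hge
    · have hx : ∀ D : Set (Fin d → ℝ), ∃ x : Fin d → ℝ, D ∈ F →
          (∀ j, ∃ n : ℕ, x j = α ^ n) ∧ ∀ C ∈ F.erase D, x ∈ C := by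
        intro D
        by_cases hD : D ∈ F
        · obtain ⟨x, hx⟩ := ih (F.erase D) (Finset.erase_ssubset hD)
            (fun C hC => hF C (Finset.mem_of_mem_erase hC))
            (fun G hGs hGc => hG G (hGs.trans (Finset.erase_subset _ _)) hGc)
          exact ⟨x, fun _ => hx⟩
        · exact ⟨0, fun h => absurd h hD⟩
      choose x hx using hx
      obtain ⟨A, hA, B, hB, hAB, y, hy, hyC⟩ := hN x F (fun D hD => (hx D hD).1) hlt.le
      refine ⟨y, hy, fun C hC => hyC C (hF C hC) ?_⟩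
      by_cases hCA : C ∈ A
      · right
        intro D hD
        refine (hx D (hB hD)).2 C (Finset.mem_erase.mpr ⟨?_, hC⟩)
        rintro rfl
        exact Finset.disjoint_left.mp hAB hCA hD
      · left
        intro D hD
        refine (hx D (hA hD)).2 C (Finset.mem_erase.mpr ⟨?_, hC⟩)
        rintro rfl
        exact hCA hD
    · exact hG F (Finset.Subset.refl _) hge

end Pool.Agent.Lib.MP_a46e5c_co
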